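import Mathlib
set_option autoImplicit false

/-!
Matrices with vanishing row sums and negative off-diagonal entries.
-/

namespace Pool.Agent.TH826.UH

open Matrix

/-- If all row sums of the real `(g + 1) × (g + 1)` matrix `I` vanish and its off-diagonal entries
are negative, then the `g × g` matrix of the differences of the rows to the row `0`, without the
column `0`, is nonsingular. -/
theorem det_ne_zero {g : ℕ} (I : Fin (g + 1) → Fin (g + 1) → ℝ) (hrow : ∀ i, ∑ j, I i j = 0)
    (hneg : ∀ i j, i ≠ j → I i j < 0) :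
    (Matrix.of fun j k : Fin g => I k.succ j.succ - I 0 j.succ).det ≠ 0 := by
  intro hdet
  obtain ⟨v, hv0, hv⟩ := Matrix.exists_vecMul_eq_zero_iff.2 hdet
  set c : Fin (g + 1) → ℝ := Fin.cons 0 v with hc
  have hC : ∀ i, ∑ j, c j * I i j = ∑ j, c j * I 0 j := by
    intro i
    refine Fin.cases rfl (fun k => ?_) i
    have h1 := congrFun hv k
    rw [Matrix.vecMul, dotProduct, Pi.zero_apply] at h1
    rw [Fin.sum_univ_succ, Fin.sum_univ_succ, hc]
    simp only [Fin.cons_zero, Fin.cons_succ, zero_mul, zero_add]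
    rw [← sub_eq_zero, ← Finset.sum_sub_distrib, ← h1]
    refine Finset.sum_congr rfl fun j _ => ?_
    rw [Matrix.of_apply]
    ring
  have hsub : ∀ i, ∑ j, (c j - c i) * I i j = ∑ j, c j * I 0 j := by
    intro i
    rw [← hC i]
    simp only [sub_mul, Finset.sum_sub_distrib, ← Finset.mul_sum]
    rw [hrow i, mul_zero, sub_zero]
  obtain ⟨p, -, hp⟩ := Finset.exists_max_image Finset.univ c ⟨0, Finset.mem_univ _⟩
  obtain ⟨q, -, hq⟩ := Finset.exists_min_image Finset.univ c ⟨0, Finset.mem_univ _⟩
  have h1 : ∀ j, 0 ≤ (c j - c p) * I p j := by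
    intro j
    by_cases hj : p = j
    · rw [hj]; simp
    · exact mul_nonneg_of_nonpos_of_nonpos (sub_nonpos.2 (hp j (Finset.mem_univ _)))
        (hneg p j hj).le
  have h2 : ∀ j, (c j - c q) * I q j ≤ 0 := by
    intro j
    by_cases hj : q = j
    · rw [hj]; simp
    · exact mul_nonpos_of_nonneg_of_nonpos (sub_nonneg.2 (hq j (Finset.mem_univ _)))
        (hneg q j hj).le
  have h3 : 0 ≤ ∑ j, c j * I 0 j := by
    rw [← hsub p]
    exact Finset.sum_nonneg fun j _ => h1 j
  have h4 : ∑ j, c j * I 0 j ≤ 0 := by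
    rw [← hsub q]
    exact Finset.sum_nonpos fun j _ => h2 j
  have h5 : ∑ j, (c j - c p) * I p j = 0 := by
    rw [hsub p]
    exact le_antisymm h4 h3
  have h6 := (Finset.sum_eq_zero_iff_of_nonneg fun j _ => h1 j).1 h5
  have h7 : ∀ j, c j = c p := by
    intro j
    by_cases hj : p = j
    · rw [hj]
    · have h8 := h6 j (Finset.mem_univ _)
      rcases mul_eq_zero.1 h8 with h9 | h9
      · linarith
      · exact absurd h9 (hneg p j hj).ne
  refine hv0 (funext fun k => ?_)
  have h8 : c k.succ = c 0 := (h7 _).trans (h7 0).symm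
  rw [hc] at h8
  simpa using h8

/-- If all row sums of the real `(g + 1) × (g + 1)` matrix `I` are equal to `κ ≥ 0` and in each row
all off-diagonal entries are negative or the sum of the positive ones is smaller than `κ / 2`, then
the `g × g` matrix of the differences of the rows to the row `0`, without the column `0`, is
nonsingular. -/
theorem det_ne_zero' {g : ℕ} (I : Fin (g + 1) → Fin (g + 1) → ℝ) {κ : ℝ} (hκ : 0 ≤ κ)
    (hrow : ∀ i, ∑ j, I i j = κ)
    (h : ∀ i, (∀ j, i ≠ j → I i j < 0) ∨ 2 * ∑ j ∈ Finset.univ.erase i, max (I i j) 0 < κ) :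
    (Matrix.of fun j k : Fin g => I k.succ j.succ - I 0 j.succ).det ≠ 0 := by
  rcases hκ.eq_or_lt with hκ0 | hκ0
  · refine det_ne_zero I (fun i => by rw [hrow i, hκ0]) fun i j hij => ?_
    rcases h i with h1 | h1
    · exact h1 j hij
    · exfalso
      have h2 : 0 ≤ ∑ j ∈ Finset.univ.erase i, max (I i j) 0 :=
        Finset.sum_nonneg fun j _ => le_max_right _ _
      linarith
  intro hdet
  obtain ⟨v, hv0, hv⟩ := Matrix.exists_vecMul_eq_zero_iff.2 hdet
  set c : Fin (g + 1) → ℝ := Fin.cons 0 v with hc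
  set C : ℝ := ∑ j, c j * I 0 j with hCdef
  have hC : ∀ i, ∑ j, c j * I i j = C := by
    intro i
    refine Fin.cases rfl (fun k => ?_) i
    have h1 := congrFun hv k
    rw [Matrix.vecMul, dotProduct, Pi.zero_apply] at h1
    rw [hCdef, Fin.sum_univ_succ, Fin.sum_univ_succ, hc]
    simp only [Fin.cons_zero, Fin.cons_succ, zero_mul, zero_add]
    rw [← sub_eq_zero, ← Finset.sum_sub_distrib, ← h1]
    refine Finset.sum_congr rfl fun j _ => ?_
    rw [Matrix.of_apply]
    ring
  -- the shifted coefficients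
  set e : Fin (g + 1) → ℝ := fun j => c j - C / κ with he
  have hE : ∀ i, ∑ j, e j * I i j = 0 := by
    intro i
    simp only [he, sub_mul, Finset.sum_sub_distrib, ← Finset.mul_sum]
    rw [hC i, hrow i]
    field_simp
    ring
  have hsub : ∀ i, κ * e i = -∑ j ∈ Finset.univ.erase i, (e j - e i) * I i j := by
    intro i
    have h1 : ∑ j, (e j - e i) * I i j = -(κ * e i) := by
      simp only [sub_mul, Finset.sum_sub_distrib, ← Finset.mul_sum]
      rw [hE i, hrow i]
      ring
    rw [← Finset.add_sum_erase _ _ (Finset.mem_univ i), sub_self, zero_mul, zero_add] at h1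
    linarith
  obtain ⟨p, -, hp⟩ := Finset.exists_max_image Finset.univ (fun j => |e j|)
    ⟨0, Finset.mem_univ _⟩
  have key : κ * |e p| ≤ |e p| * (2 * ∑ j ∈ Finset.univ.erase p, max (I p j) 0) := by
    have h1 : κ * |e p| = ∑ j ∈ Finset.univ.erase p, (|e p| - SignType.sign (e p) * e j) *
        I p j := by
      have h2 : |e p| = SignType.sign (e p) * e p := (sign_mul_self (e p)).symm
      have h3 : κ * |e p| = SignType.sign (e p) * (κ * e p) := by
        rw [h2]
        ring
      rw [h3, hsub p, mul_neg, Finset.mul_sum, ← Finset.sum_neg_distrib]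
      refine Finset.sum_congr rfl fun j _ => ?_
      rw [h2]
      ring
    rw [h1]
    have h4 : |e p| * (2 * ∑ j ∈ Finset.univ.erase p, max (I p j) 0) =
        ∑ j ∈ Finset.univ.erase p, 2 * |e p| * max (I p j) 0 := by
      rw [← Finset.mul_sum]
      ring
    rw [h4]
    refine Finset.sum_le_sum fun j _ => ?_
    have h5 : |(SignType.sign (e p) : ℝ) * e j| ≤ |e p| := by
      rw [abs_mul]
      have h6 : |(SignType.sign (e p) : ℝ)| ≤ 1 := by
        rcases SignType.trichotomy (SignType.sign (e p)) with h | h | h <;> rw [h] <;> simp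
      calc |(SignType.sign (e p) : ℝ)| * |e j| ≤ 1 * |e p| :=
            mul_le_mul h6 (hp j (Finset.mem_univ _)) (abs_nonneg _) zero_le_one
        _ = |e p| := one_mul _
    have h6 := abs_le.1 h5
    have h7 : 0 ≤ |e p| - SignType.sign (e p) * e j := by linarith [h6.2]
    have h8 : |e p| - SignType.sign (e p) * e j ≤ 2 * |e p| := by linarith [h6.1]
    calc (|e p| - SignType.sign (e p) * e j) * I p j
        ≤ (|e p| - SignType.sign (e p) * e j) * max (I p j) 0 :=
          mul_le_mul_of_nonneg_left (le_max_left _ _) h7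
      _ ≤ 2 * |e p| * max (I p j) 0 := mul_le_mul_of_nonneg_right h8 (le_max_right _ _)
  have hp0 : |e p| = 0 := by
    by_contra hne
    have hpos : 0 < |e p| := lt_of_le_of_ne (abs_nonneg _) (Ne.symm hne)
    have h1 : κ ≤ 2 * ∑ j ∈ Finset.univ.erase p, max (I p j) 0 := by
      have h2 : |e p| * κ ≤ |e p| * (2 * ∑ j ∈ Finset.univ.erase p, max (I p j) 0) := by
        rw [mul_comm]
        exact key
      exact le_of_mul_le_mul_left h2 hpos
    rcases h p with h2 | h2
    · have h3 : ∑ j ∈ Finset.univ.erase p, max (I p j) 0 = 0 :=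
        Finset.sum_eq_zero fun j hj => max_eq_right (h2 j (Finset.ne_of_mem_erase hj).symm).le
      rw [h3] at h1
      linarith
    · linarith
  have h7 : ∀ j, e j = 0 := by
    intro j
    have h8 := hp j (Finset.mem_univ _)
    rw [hp0] at h8
    exact abs_eq_zero.1 (le_antisymm h8 (abs_nonneg _))
  refine hv0 (funext fun k => ?_)
  have h8 : c k.succ = c 0 := by
    have h9 := h7 k.succ
    have h10 := h7 0
    simp only [he] at h9 h10
    linarith
  rw [hc] at h8
  simpa using h8

end Pool.Agent.TH826.UH
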