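import Pool.Agent.TH826.UH.Roots
set_option autoImplicit false

/-!
Explicit separation conditions for `F = t + lam ∏ (x - b_i)`.
-/

namespace Pool.Agent.TH826.UH

open Polynomial

variable {g : ℕ} {F : ℂ[X]} {b : Fin (g + 1) → ℂ} {lam t : ℂ}

theorem eval_fam (hF : F = C t + C lam * ∏ i, (X - C (b i))) (x : ℂ) :
    F.eval x = t + lam * ∏ i, (x - b i) := by
  rw [hF]
  simp only [eval_add, eval_mul, eval_C, eval_prod, eval_sub, eval_X]

theorem natDegree_fam (hlam : lam ≠ 0) (hF : F = C t + C lam * ∏ i, (X - C (b i))) :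
    F.natDegree = g + 1 := by
  have h1 : (∏ i, (X - C (b i))).natDegree = g + 1 := by
    rw [natDegree_prod_of_monic _ _ fun i _ => monic_X_sub_C _]
    simp
  have h2 : (C lam * ∏ i, (X - C (b i))).natDegree = g + 1 := by
    rw [natDegree_C_mul hlam, h1]
  rw [hF, add_comm, natDegree_add_C, h2]

theorem leadingCoeff_fam (hlam : lam ≠ 0) (hF : F = C t + C lam * ∏ i, (X - C (b i))) :
    F.leadingCoeff = lam := by
  have h1 : (∏ i, (X - C (b i))).Monic := monic_prod_of_monic _ _ fun i _ => monic_X_sub_C _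
  have h2 : (C lam * ∏ i, (X - C (b i))).leadingCoeff = lam := by
    rw [leadingCoeff_mul, leadingCoeff_C, h1.leadingCoeff, mul_one]
  have h3 : (C t).degree < (C lam * ∏ i, (X - C (b i))).degree := by
    rw [degree_C_mul hlam, degree_prod_of_monic _ _ fun i _ => monic_X_sub_C _]
    refine lt_of_le_of_lt degree_C_le ?_
    simp only [degree_X_sub_C, Finset.sum_const, Finset.card_univ, Fintype.card_fin]
    rw [nsmul_eq_mul, mul_one]
    exact_mod_cast Nat.succ_pos g
  rw [hF, leadingCoeff_add_of_degree_lt h3, h2]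

/-- The general criterion: a lower bound `B` for the product of the distances. -/
theorem sepd_fam (hlam : lam ≠ 0) (hF : F = C t + C lam * ∏ i, (X - C (b i))) {ρ B : ℝ}
    (hρ : 0 < ρ) (hsep : ∀ i j, i ≠ j → 2 * ρ ≤ ‖b i - b j‖) (ht : ‖t‖ ≤ 2)
    (hB : ∀ x ∈ outer b ρ, B ≤ ∏ i, ‖x - b i‖) (hlamB : 2 + ‖t‖ < ‖lam‖ * B) :
    ∃ η, Sepd F b ρ η := by
  have hdeg := natDegree_fam hlam hF
  have hF0 : F ≠ 0 := by
    intro h
    rw [h, natDegree_zero] at hdeg
    omega
  have hdeg0 : 0 < F.degree := by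
    rw [degree_eq_natDegree hF0, hdeg]
    exact_mod_cast Nat.succ_pos g
  have hout : ∀ x ∈ outer b ρ, 2 < ‖F.eval x‖ := by
    intro x hx
    rw [eval_fam hF]
    have h1 : ‖lam * ∏ i, (x - b i)‖ - ‖t‖ ≤ ‖t + lam * ∏ i, (x - b i)‖ := by
      have := norm_sub_norm_le (lam * ∏ i, (x - b i)) (-t)
      rw [norm_neg, sub_neg_eq_add, add_comm (lam * _) t] at this
      exact this
    have h2 : ‖lam‖ * B ≤ ‖lam * ∏ i, (x - b i)‖ := by
      rw [norm_mul, norm_prod]
      exact mul_le_mul_of_nonneg_left (hB x hx) (norm_nonneg _)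
    linarith
  obtain ⟨η, hη, h2⟩ := exists_gap hdeg0 hout
  refine ⟨η, hdeg, Nat.succ_pos g, hρ, hsep, fun j => ?_, hη, h2⟩
  rw [eval_fam hF, Finset.prod_eq_zero (Finset.mem_univ j) (sub_self _), mul_zero, add_zero]
  exact ht

/-- Mutual distances at least `D`. -/
theorem sepd_dist (hlam : lam ≠ 0) (hF : F = C t + C lam * ∏ i, (X - C (b i))) {D : ℝ}
    (hD : 2 ≤ D) (hsep : ∀ i j, i ≠ j → D ≤ ‖b i - b j‖) (ht : ‖t‖ ≤ 2)
    (h : (2 + ‖t‖) * 2 ^ (g + 1) < ‖lam‖ * D ^ (g + 1)) :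
    ∃ η, Sepd F b (D / 2) η := by
  refine sepd_fam hlam hF (B := (D / 2) ^ (g + 1)) (by linarith)
    (fun i j hij => by linarith [hsep i j hij]) ht (fun x hx => ?_) ?_
  · calc (D / 2) ^ (g + 1) = ∏ _i : Fin (g + 1), (D / 2) := by
          rw [Finset.prod_const, Finset.card_univ, Fintype.card_fin]
      _ ≤ ∏ i, ‖x - b i‖ := Finset.prod_le_prod (fun i _ => by linarith) fun i _ => hx i
  · rw [div_pow, ← mul_div_assoc, lt_div_iff₀ (by positivity)]
    exact h

/-- Different integers. -/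
theorem sepd_int {b : Fin (g + 1) → ℤ} (hinj : Function.Injective b) (hlam : lam ≠ 0)
    (hF : F = C t + C lam * ∏ i, (X - C ((b i : ℤ) : ℂ))) (ht : ‖t‖ ≤ 2) (h : 17 ≤ ‖lam‖) :
    ∃ η, Sepd F (fun i => ((b i : ℤ) : ℂ)) (1 / 2) η := by
  refine sepd_fam (b := fun i => ((b i : ℤ) : ℂ)) hlam hF (B := (1 / 2) ^ 2) (by norm_num)
    (fun i j hij => ?_) ht (fun x hx => ?_) (by norm_num; linarith)
  · have h1 : (1 : ℤ) ≤ |b i - b j| := Int.one_le_abs (sub_ne_zero.2 (hinj.ne hij))
    have h2 : ‖((b i : ℤ) : ℂ) - ((b j : ℤ) : ℂ)‖ = ((|b i - b j| : ℤ) : ℝ) := by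
      rw [← Int.cast_sub, Complex.norm_intCast, Int.cast_abs]
    rw [h2]
    have h3 : (1 : ℝ) ≤ ((|b i - b j| : ℤ) : ℝ) := by exact_mod_cast h1
    linarith
  · set m : ℤ := ⌊x.re⌋ with hm
    have hm1 : (m : ℝ) ≤ x.re := Int.floor_le _
    have hm2 : x.re < m + 1 := Int.lt_floor_add_one _
    set S : Finset (Fin (g + 1)) := Finset.univ.filter fun i => b i = m ∨ b i = m + 1 with hS
    have hcard : S.card ≤ 2 := by
      have h1 : (S.image b) ⊆ {m, m + 1} := by
        intro y hy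
        obtain ⟨i, hi, rfl⟩ := Finset.mem_image.1 hy
        have h2 := (Finset.mem_filter.1 hi).2
        simpa using h2
      calc S.card = (S.image b).card := (Finset.card_image_of_injective _ hinj).symm
        _ ≤ ({m, m + 1} : Finset ℤ).card := Finset.card_le_card h1
        _ ≤ 2 := Finset.card_le_two
    have hbig : ∀ i, i ∉ S → 1 ≤ ‖x - ((b i : ℤ) : ℂ)‖ := by
      intro i hi
      have h1 : ¬ (b i = m ∨ b i = m + 1) := fun h => hi (Finset.mem_filter.2
        ⟨Finset.mem_univ i, h⟩)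
      push Not at h1
      have h2 : |x.re - (b i : ℝ)| ≤ ‖x - ((b i : ℤ) : ℂ)‖ := by
        have := Complex.abs_re_le_norm (x - ((b i : ℤ) : ℂ))
        simpa using this
      refine le_trans ?_ h2
      rcases lt_or_gt_of_ne h1.1 with h3 | h3
      · have h4 : b i + 1 ≤ m := h3
        have h5 : (b i : ℝ) + 1 ≤ m := by exact_mod_cast h4
        rw [le_abs]
        left
        linarith
      · have h4 : m + 1 < b i := lt_of_le_of_ne h3 (Ne.symm h1.2)
        have h5 : m + 2 ≤ b i := by omega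
        have h6 : (m : ℝ) + 2 ≤ b i := by exact_mod_cast h5
        rw [le_abs]
        right
        linarith
    calc (1 / 2 : ℝ) ^ 2 ≤ (1 / 2) ^ S.card :=
          pow_le_pow_of_le_one (by norm_num) (by norm_num) hcard
      _ = ∏ i, (if i ∈ S then (1 / 2 : ℝ) else 1) := by
          rw [Finset.prod_ite_mem, Finset.univ_inter, Finset.prod_const]
      _ ≤ ∏ i, ‖x - ((b i : ℤ) : ℂ)‖ := by
          refine Finset.prod_le_prod (fun i _ => ?_) fun i _ => ?_
          · split_ifs <;> norm_num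
          · split_ifs with hi
            · exact hx i
            · exact hbig i hi

end Pool.Agent.TH826.UH
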