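import Pool.Agent.TH826.HD.Loop
import Pool.Agent.TH826.MK.Exact
set_option autoImplicit false

/-!
The regulator integral of two functions on a loop.
-/

namespace Pool.Agent.TH826.UH

open MeasureTheory Set

open Pool.Agent.TH826.MK (pairing circ vf One one_lin wd circ_sub_ne_zero norm_circ contDiff_circ
  hasDerivAt_circ circ_add_one)

open scoped Real

/-- The integral of `log |G| d arg H - log |H| d arg G`. -/
noncomputable def pr (G H : ℝ → ℂ) : ℝ :=
  ∫ s in (0 : ℝ)..1, (Real.log ‖G s‖ * (deriv H s / H s).im -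
        Real.log ‖H s‖ * (deriv G s / G s).im)

/-- twice continuously differentiable nonvanishing functions -/
structure NZ (G : ℝ → ℂ) : Prop where
  smooth : ContDiff ℝ 2 G
  ne_zero : ∀ s, G s ≠ 0

variable {G H H' : ℝ → ℂ}

theorem NZ.mul (hG : NZ G) (hH : NZ H) : NZ fun s => G s * H s :=
  ⟨hG.smooth.mul hH.smooth, fun s => mul_ne_zero (hG.ne_zero s) (hH.ne_zero s)⟩

theorem NZ.prod {ι : Type*} (t : Finset ι) {G : ι → ℝ → ℂ} (hG : ∀ j, NZ (G j)) :
    NZ fun s => ∏ j ∈ t, G j s :=
  ⟨contDiff_prod fun j _ => (hG j).smooth, fun s => Finset.prod_ne_zero_iff.2 fun j _ =>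
    (hG j).ne_zero s⟩

theorem NZ.neg (hG : NZ G) : NZ fun s => -G s :=
  ⟨hG.smooth.neg, fun s => neg_ne_zero.2 (hG.ne_zero s)⟩

theorem NZ.div (hG : NZ G) (hH : NZ H) : NZ fun s => G s / H s := by
  have e : (fun s => G s / H s) = fun s => G s * (H s)⁻¹ := by
    funext s
    rw [div_eq_mul_inv]
  rw [e]
  exact ⟨hG.smooth.mul (hH.smooth.inv hH.ne_zero), fun s => mul_ne_zero (hG.ne_zero s)
    (inv_ne_zero (hH.ne_zero s))⟩

theorem NZ.cont_log (hG : NZ G) : Continuous fun s => Real.log ‖G s‖ :=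
  Continuous.log hG.smooth.continuous.norm fun s => norm_ne_zero_iff.2 (hG.ne_zero s)

theorem NZ.cont_ld (hG : NZ G) : Continuous fun s => deriv G s / G s :=
  (hG.smooth.continuous_deriv (by norm_num)).div hG.smooth.continuous hG.ne_zero

theorem NZ.cont_im (hG : NZ G) : Continuous fun s => (deriv G s / G s).im :=
  Complex.continuous_im.comp hG.cont_ld

theorem cont_int (hG : NZ G) (hH : NZ H) : Continuous fun s =>
    (Real.log ‖G s‖ * (deriv H s / H s).im - Real.log ‖H s‖ * (deriv G s / G s).im) :=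
  (hG.cont_log.mul hH.cont_im).sub (hH.cont_log.mul hG.cont_im)

theorem NZ.ld_mul (hG : NZ G) (hH : NZ H) (s : ℝ) :
    deriv (fun s => G s * H s) s / (G s * H s) = deriv G s / G s + deriv H s / H s := by
  have h1 := (hG.smooth.differentiable (by norm_num)) s
  have h2 := (hH.smooth.differentiable (by norm_num)) s
  rw [deriv_fun_mul h1 h2]
  have := hG.ne_zero s
  have := hH.ne_zero s
  field_simp

theorem pr_mul (hG : NZ G) (hH : NZ H) (hH' : NZ H') :
    pr G (fun s => H s * H' s) = pr G H + pr G H' := by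
  unfold pr
  rw [← intervalIntegral.integral_add ((cont_int hG hH).intervalIntegrable _ _)
    ((cont_int hG hH').intervalIntegrable _ _)]
  refine intervalIntegral.integral_congr fun s _ => ?_
  simp only
  rw [hH.ld_mul hH', norm_mul, Real.log_mul (norm_ne_zero_iff.2 (hH.ne_zero s))
    (norm_ne_zero_iff.2 (hH'.ne_zero s)), Complex.add_im]
  ring

theorem pr_neg : pr G (fun s => -H s) = pr G H := by
  unfold pr
  refine intervalIntegral.integral_congr fun s _ => ?_
  simp only
  rw [norm_neg, deriv.fun_neg, neg_div_neg_eq]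

theorem pr_one : pr G (fun _ => 1) = 0 := by
  unfold pr
  simp

theorem pr_prod {ι : Type*} [DecidableEq ι] (t : Finset ι) (hG : NZ G) {H : ι → ℝ → ℂ}
    (hH : ∀ j, NZ (H j)) : pr G (fun s => ∏ j ∈ t, H j s) = ∑ j ∈ t, pr G (H j) := by
  induction t using Finset.induction_on with
  | empty => simpa using pr_one
  | insert j t hj ih =>
    simp only [Finset.prod_insert hj]
    rw [pr_mul hG (hH j) (NZ.prod t hH), ih, Finset.sum_insert hj]

theorem pr_div (hG : NZ G) (hH : NZ H) (hH' : NZ H') :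
    pr G (fun s => H s / H' s) = pr G H - pr G H' := by
  rw [eq_sub_iff_add_eq, ← pr_mul hG (hH.div hH') hH']
  congr 1
  funext s
  rw [div_mul_cancel₀ _ (hH'.ne_zero s)]

theorem pairing_eq_pr (hG : NZ G) (hH : NZ H) :
    pairing (![fun θ => G (θ 0), fun θ => H (θ 0)] : Fin 2 → (Fin 1 → ℝ) → ℂ) = pr G H :=
  Pool.Agent.TH826.HD.pairing_one_dim hG.smooth hH.smooth hG.ne_zero hH.ne_zero

theorem nz_circ_sub {R : ℝ} (hR : 0 < R) {c : ℂ} (hc : ‖c‖ ≠ R) : NZ fun s => circ R s - c :=
  ⟨(contDiff_circ R).sub contDiff_const, circ_sub_ne_zero hR hc⟩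

theorem nz_circ {R : ℝ} (hR : 0 < R) : NZ (circ R) :=
  ⟨contDiff_circ R, fun s => by rw [← norm_ne_zero_iff, norm_circ hR.le]; exact hR.ne'⟩

theorem pr_lin {R : ℝ} (hR : 0 < R) {β c : ℂ} (hβ : ‖β‖ ≠ R) (hc : ‖c‖ ≠ R) :
    pr (fun s => circ R s - β) (fun s => circ R s - c) =
      2 * π * (Real.log ‖β - c‖ * (wd R c - wd R β)) := by
  have h := Pool.Agent.TH826.MK.pairing_lin (d := 1) hR hβ hc
    (G := fun _ s => circ R s - c) (w := fun _ => wd R c) (fun _ => one_lin hR hc) 0
  rw [← pairing_eq_pr (nz_circ_sub hR hβ) (nz_circ_sub hR hc)]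
  rw [show (Finset.univ.erase (0 : Fin 1)) = ∅ from by decide, Finset.prod_empty, pow_one,
    mul_one] at h
  rw [← h]
  congr 1
  funext i
  fin_cases i
  · rfl
  · rfl

/-- The symbol `{z, z + 1/z - (ζ + 1/ζ)}` has trivial regulator on `|z| = R`. -/
theorem pr_circ {R : ℝ} (hR : 1 < R) {ζ : ℂ} (hζ : ‖ζ‖ = 1) :
    pr (circ R) (fun s => circ R s + (circ R s)⁻¹ - (ζ + ζ⁻¹)) = 0 := by
  have hR0 : 0 < R := one_pos.trans hR
  have hζ0 : ζ ≠ 0 := fun h => by rw [h, norm_zero] at hζ; exact zero_ne_one hζ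
  have h1 : ‖ζ‖ ≠ R := by rw [hζ]; exact hR.ne
  have h2 : ‖ζ⁻¹‖ ≠ R := by rw [norm_inv, hζ, inv_one]; exact hR.ne
  have h0 : ‖(0 : ℂ)‖ ≠ R := by rw [norm_zero]; exact hR0.ne
  have hz := nz_circ hR0
  have n1 := nz_circ_sub hR0 h1
  have n2 := nz_circ_sub hR0 h2
  have e : (fun s => circ R s + (circ R s)⁻¹ - (ζ + ζ⁻¹)) = fun s =>
      ((circ R s - ζ) * (circ R s - ζ⁻¹)) / circ R s := by
    funext s
    have h3 := hz.ne_zero s
    field_simp
    ring
  rw [e, pr_div hz (n1.mul n2) hz, pr_mul hz n1 n2]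
  have e0 : circ R = fun s => circ R s - 0 := by
    funext s
    rw [sub_zero]
  have hb : ∀ c : ℂ, ‖c‖ ≠ R → pr (circ R) (fun s => circ R s - c) =
      2 * π * (Real.log ‖c‖ * (wd R c - wd R 0)) := by
    intro c hc
    have h4 := pr_lin hR0 h0 hc
    rw [zero_sub, norm_neg] at h4
    rw [← h4]
    congr 1
  have h5 : pr (circ R) (circ R) = 0 := by
    have h6 := hb 0 h0
    rw [norm_zero, Real.log_zero, zero_mul, mul_zero] at h6
    rw [← h6]
    congr 1
  rw [hb ζ h1, hb ζ⁻¹ h2, h5, norm_inv, hζ, inv_one, Real.log_one]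
  ring

theorem ld_circ {R : ℝ} (hR : 0 < R) (s : ℝ) : (deriv (circ R) s / circ R s).im = 2 * π := by
  rw [(hasDerivAt_circ R s).deriv, mul_div_cancel_right₀ _ ((nz_circ hR).ne_zero s)]
  simp

theorem pr_const {R : ℝ} (hR : 0 < R) (c : ℂ) :
    pr (circ R) (fun _ => c) = -(2 * π * Real.log ‖c‖) := by
  unfold pr
  simp only [ld_circ hR, deriv_const, zero_div, Complex.zero_im, mul_zero, zero_sub]
  simp
  ring

/-- A function with values in a disc far away from the zero: the regulator is bounded above. -/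
theorem pr_lt_of_disc {R : ℝ} (hR : 1 < R) {X : ℝ → ℂ} (hX : ContDiff ℝ 2 X)
    (hper : ∀ s, X (s + 1) = X s) {c c' : ℂ} {ρ d : ℝ} (hd : 0 < d)
    (hdisc : ∀ s, ‖X s - c‖ < ρ)
    (hfar : ρ + d ≤ ‖c - c'‖) : pr (circ R) (fun s => X s - c') < -(2 * π * Real.log d) := by
  have hR0 : 0 < R := one_pos.trans hR
  have hρ : 0 < ρ := (norm_nonneg _).trans_lt (hdisc 0)
  have hcc : c - c' ≠ 0 := by
    rw [← norm_pos_iff]
    linarith
  have hnorm : ∀ s, d < ‖X s - c'‖ := by
    intro s
    have h1 : ‖c - c'‖ ≤ ‖X s - c'‖ + ‖X s - c‖ := by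
      have : c - c' = (X s - c') - (X s - c) := by ring
      rw [this]
      exact norm_sub_le _ _
    linarith [hdisc s]
  have nX : NZ fun s => X s - c' :=
    ⟨hX.sub contDiff_const, fun s => by
      rw [← norm_pos_iff]
      exact hd.trans (hnorm s)⟩
  have hz := nz_circ hR0
  -- the winding number vanishes
  set w : ℝ → ℂ := fun s => 1 + (X s - c) / (c - c') with hw
  have hws : ∀ s, w s ∈ Complex.slitPlane := by
    intro s
    refine Complex.mem_slitPlane_iff.2 (Or.inl ?_)
    have h1 : ‖(X s - c) / (c - c')‖ < 1 := by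
      rw [norm_div, div_lt_one (norm_pos_iff.2 hcc)]
      linarith [hdisc s]
    have h2 := Complex.abs_re_le_norm ((X s - c) / (c - c'))
    have h3 := (abs_le.1 h2).1
    rw [hw]
    simp only [Complex.add_re, Complex.one_re]
    linarith
  have hXd : ∀ s, HasDerivAt X (deriv X s) s := fun s =>
    (hX.differentiable (by norm_num) s).hasDerivAt
  have hlog : ∀ s, HasDerivAt (fun s => Complex.log (w s))
      (deriv (fun s => X s - c') s / (X s - c')) s := by
    intro s
    have h1 : HasDerivAt w (deriv X s / (c - c')) s := by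
      rw [hw]
      exact (((hXd s).sub_const c).div_const (c - c')).const_add 1
    have h2 := h1.clog_real (hws s)
    refine h2.congr_deriv ?_
    rw [((hXd s).sub_const c').deriv]
    have h3 : w s = (X s - c') / (c - c') := by
      rw [hw]
      simp only
      field_simp
      ring
    rw [h3]
    have := nX.ne_zero s
    field_simp
  have hwind : ∫ s in (0 : ℝ)..1, (deriv (fun s => X s - c') s / (X s - c')) = 0 := by
    rw [intervalIntegral.integral_eq_sub_of_hasDerivAt (fun s _ => hlog s)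
      (nX.cont_ld.intervalIntegrable _ _)]
    have h1 : X 1 = X 0 := by
      have := hper 0
      rwa [zero_add] at this
    simp only [hw, h1, sub_self]
  have hwim : ∫ s in (0 : ℝ)..1, (deriv (fun s => X s - c') s / (X s - c')).im = 0 := by
    have h1 := Complex.imCLM.intervalIntegral_comp_comm
      (nX.cont_ld.intervalIntegrable (μ := volume) 0 1)
    rw [hwind, map_zero] at h1
    exact h1
  unfold pr
  simp only [ld_circ hR0, norm_circ hR0.le]
  have i1 : IntervalIntegrable (fun s => Real.log R *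
      (deriv (fun s => X s - c') s / (X s - c')).im) volume 0 1 :=
    (continuous_const.mul nX.cont_im).intervalIntegrable _ _
  have i2 : IntervalIntegrable (fun s => Real.log ‖X s - c'‖ * (2 * π)) volume 0 1 :=
    (nX.cont_log.mul continuous_const).intervalIntegrable _ _
  rw [intervalIntegral.integral_sub i1 i2,
    intervalIntegral.integral_const_mul, hwim, mul_zero, zero_sub,
    intervalIntegral.integral_mul_const, neg_lt_neg_iff, mul_comm]
  refine mul_lt_mul_of_pos_right ?_ (by positivity)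
  have h3 : 0 < ∫ s in (0 : ℝ)..1, (Real.log ‖X s - c'‖ - Real.log d) := by
    refine intervalIntegral.intervalIntegral_pos_of_pos_on
      ((nX.cont_log.sub continuous_const).intervalIntegrable _ _)
      (fun s _ => sub_pos.2 (Real.log_lt_log hd (hnorm s))) one_pos
  rw [intervalIntegral.integral_sub (nX.cont_log.intervalIntegrable _ _)
    (continuous_const.intervalIntegrable _ _)] at h3
  simp only [intervalIntegral.integral_const, sub_zero, smul_eq_mul, one_mul] at h3
  linarith

end Pool.Agent.TH826.UH
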