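import Pool.Agent.TH826.HD.Ring
import Pool.Agent.TH826.MK.Variety
set_option autoImplicit false

/-!
Integrality: the symbols `{z, (x - b)/(x - b')}` on the curve `z + 1/z = F(x)` are unramified at all
discrete valuations of the function field, if the coefficients of `F` and `b`, `b'` are algebraic
integers and `F(b)`, `F(b')` are of the form `ζ + 1/ζ` with roots of unity `ζ`.
-/

namespace Pool.Agent.TH826.UH

open scoped WithZero

open Polynomial

open Pool.Agent.TH826.MK (KQ symb unitPart Unramified)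

open Pool.Agent.TH826.HD

theorem val_pow_sub_one_lt {K L : Type*} [Field K] [Field L] (s : K →+* ℂ) (c : K →+* L)
    (v : Valuation L ℤᵐ⁰) {t : K} {ζ : ℂ} {k : ℕ} (hk : k ≠ 0) (hζ : ζ ^ k = 1)
    (ht : s t = ζ + ζ⁻¹) (htv : v (c t) ≤ 1) {q : L} (hq : v q ≤ 1)
    (h : v (q ^ 2 - c t * q + 1) < 1) : v (q ^ k - 1) < 1 := by
  set O : Subring K := (v.integer).comap c with hO
  have htO : t ∈ O := htv
  set P : O[X] := X ^ 2 - C (⟨t, htO⟩ : O) * X + 1 with hP
  have hPm : P.Monic := by
    rw [hP]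
    monicity!
  set U : O[X] := (X ^ k - 1) ^ 2 with hU
  have hζ0 : ζ ≠ 0 := by
    intro h0
    rw [h0, zero_pow hk] at hζ
    exact zero_ne_one hζ
  set φ : O →+* ℂ := s.comp O.subtype with hφ
  have hφi : Function.Injective φ := s.injective.comp Subtype.val_injective
  have hPmap : P.map φ = (X - C ζ) * (X - C ζ⁻¹) := by
    rw [hP]
    simp only [Polynomial.map_add, Polynomial.map_sub, Polynomial.map_mul, Polynomial.map_pow,
      Polynomial.map_X, Polynomial.map_C, Polynomial.map_one]
    have h1 : φ ⟨t, htO⟩ = ζ + ζ⁻¹ := ht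
    rw [h1, C_add]
    have h2 : (C ζ : ℂ[X]) * C ζ⁻¹ = 1 := by rw [← C_mul, mul_inv_cancel₀ hζ0, C_1]
    linear_combination -h2
  have hdvd : P.map φ ∣ U.map φ := by
    rw [hPmap, hU]
    simp only [Polynomial.map_sub, Polynomial.map_pow, Polynomial.map_X, Polynomial.map_one]
    rw [pow_two]
    refine mul_dvd_mul ?_ ?_
    · rw [dvd_iff_isRoot, IsRoot.def]
      simp [hζ]
    · rw [dvd_iff_isRoot, IsRoot.def]
      simp [hζ]
  have hR : U %ₘ P = 0 := by
    refine Polynomial.map_injective φ hφi ?_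
    rw [Polynomial.map_modByMonic _ hPm, Polynomial.map_zero]
    exact (modByMonic_eq_zero_iff_dvd (hPm.map φ)).2 hdvd
  have hUP : U = P * (U /ₘ P) := by
    have h1 := modByMonic_add_div U P
    rw [hR, zero_add] at h1
    exact h1.symm
  set ψ : O →+* L := c.comp O.subtype with hψ
  have hev := congrArg (Polynomial.eval₂ ψ q) hUP
  rw [Polynomial.eval₂_mul, hU, hP] at hev
  simp only [Polynomial.eval₂_add, Polynomial.eval₂_sub, Polynomial.eval₂_mul,
    Polynomial.eval₂_pow, Polynomial.eval₂_X, Polynomial.eval₂_C, Polynomial.eval₂_one] at hev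
  have h1 : ψ ⟨t, htO⟩ = c t := rfl
  rw [h1] at hev
  set W := Polynomial.eval₂ ψ q (U /ₘ P) with hW
  have hWv : v W ≤ 1 := by
    rw [hW, Polynomial.eval₂_eq_sum_range]
    refine Valuation.map_sum_le v fun i _ => ?_
    rw [map_mul, map_pow]
    exact mul_le_one' ((U /ₘ P).coeff i).2 (pow_le_one' hq _)
  have h2 : v ((q ^ k - 1) ^ 2) < 1 := by
    have h3 : (q ^ k - 1) ^ 2 = (q ^ 2 - c t * q + 1) * W := hev
    rw [h3, map_mul]
    exact mul_lt_one_of_lt_of_le h hWv
  rw [map_pow] at h2
  by_contra hcon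
  exact absurd h2 (not_lt.2 (one_le_pow₀ (not_lt.1 hcon)))

variable {K : Type*} [Field K] {F : K[X]} {n : ℕ} {b : Fin n → K} {L : Type*} [Field L]
  (f : POpen F b →+* L) (v : Valuation L ℤᵐ⁰)

theorem val_int {x : K} (hx : IsIntegral ℤ x) : v (cP f x) ≤ 1 :=
  Pool.Agent.TH826.MK.val_le_one_of_integral v
    (map_isIntegral_int _ hx)

theorem val_eval_int (hF : ∀ i, IsIntegral ℤ (F.coeff i)) {x : L} (hx : v x ≤ 1) :
    v (F.eval₂ (cP f) x) ≤ 1 := by
  rw [Polynomial.eval₂_eq_sum_range]
  refine Valuation.map_sum_le v fun i _ => ?_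
  rw [map_mul, map_pow]
  exact mul_le_one' (val_int f v (hF i)) (pow_le_one' hx _)

theorem val_sub_lt (hF : ∀ i, IsIntegral ℤ (F.coeff i)) {x : L} (hx : v x ≤ 1) {β : K}
    (hβ : IsIntegral ℤ β) (h : v (x - cP f β) < 1) :
    v (F.eval₂ (cP f) x - cP f (F.eval β)) < 1 := by
  have h1 : cP f (F.eval β) = F.eval₂ (cP f) (cP f β) := by
    rw [Polynomial.eval₂_hom]
  rw [h1, Polynomial.eval₂_eq_sum_range, Polynomial.eval₂_eq_sum_range,
    ← Finset.sum_sub_distrib]
  refine (Valuation.map_sum_le v (g := v (x - cP f β)) fun i _ => ?_).trans_lt h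
  have h2 : cP f (F.coeff i) * x ^ i - cP f (F.coeff i) * cP f β ^ i =
      cP f (F.coeff i) * ((x - cP f β) *
        ∑ j ∈ Finset.range i, x ^ j * cP f β ^ (i - 1 - j)) := by
    rw [(Commute.all x (cP f β)).mul_geom_sum₂ i]
    ring
  rw [h2, map_mul, map_mul]
  have h3 : v (∑ j ∈ Finset.range i, x ^ j * cP f β ^ (i - 1 - j)) ≤ 1 := by
    refine Valuation.map_sum_le v fun j _ => ?_
    rw [map_mul, map_pow, map_pow]
    exact mul_le_one' (pow_le_one' hx _) (pow_le_one' (val_int f v hβ) _)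
  calc v (cP f (F.coeff i)) * (v (x - cP f β) * v (∑ j ∈ Finset.range i,
        x ^ j * cP f β ^ (i - 1 - j))) ≤ 1 * (v (x - cP f β) * 1) :=
        mul_le_mul' (val_int f v (hF i)) (mul_le_mul' le_rfl h3)
    _ = v (x - cP f β) := by rw [mul_one, one_mul]

/-- The symbols are unramified at all discrete valuations. -/
theorem symb_mem_unitPart (s : K →+* ℂ) (hF : ∀ i, IsIntegral ℤ (F.coeff i))
    (hbi : ∀ m, IsIntegral ℤ (b m)) (m l : Fin n)
    (hb : ∀ m : Fin n, ∃ (ζ : ℂ) (k : ℕ), k ≠ 0 ∧ ζ ^ k = 1 ∧ s (F.eval (b m)) = ζ + ζ⁻¹) :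
    symb (fun i => Units.map (f : POpen F b →* L) (pent F b m l i)) ∈ unitPart v 2 := by
  set a : Fin 2 → Lˣ := fun i => Units.map (f : POpen F b →* L) (pent F b m l i) with ha
  have ha0 : (a 0 : L) = zP f := rfl
  have ha1 : (a 1 : L) = (xP f - cP f (b m)) / (xP f - cP f (b l)) := by
    rw [← map_ux, ← map_ux]
    have h1 : a 1 = Units.map (f : POpen F b →* L) (ux F b m) /
        Units.map (f : POpen F b →* L) (ux F b l) :=
      map_div (Units.map (f : POpen F b →* L)) _ _
    rw [h1, Units.val_div_eq_div_val]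
    rfl
  have hm0 := xP_sub_ne_zero f m
  have hl0 := xP_sub_ne_zero f l
  rcases lt_or_ge 1 (v (xP f)) with hx | hx
  · -- the points at infinity
    refine Pool.Agent.TH826.MK.mem_unitPart_of_oneUnit' v 1 a ?_
    rw [ha1]
    have e : (xP f - cP f (b m)) / (xP f - cP f (b l)) - 1 =
        (cP f (b l) - cP f (b m)) / (xP f - cP f (b l)) := by
      field_simp
      ring
    rw [e, map_div₀]
    have h1 : v (xP f - cP f (b l)) = v (xP f) :=
      Valuation.map_sub_eq_of_lt_left v ((val_int f v (hbi _)).trans_lt hx)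
    rw [h1, div_lt_one₀ (zero_lt_one.trans hx)]
    exact ((v.map_sub _ _).trans (max_le (val_int f v (hbi _)) (val_int f v (hbi _)))).trans_lt hx
  · have hPhi := val_eval_int f v hF hx
    have hq := zP_eq f
    have hq0 := zP_ne_zero f
    set q := zP f with hqdef
    set P := F.eval₂ (cP f) (xP f) with hP
    have hq1 : v q = 1 := by
      rcases lt_trichotomy (v q) 1 with h | h | h
      · exfalso
        have h1 : v (q ^ 2 + 1) = 1 := by
          rw [add_comm]
          refine Valuation.map_one_add_of_lt v ?_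
          rw [map_pow]
          exact pow_lt_one₀ zero_le h (by norm_num)
        rw [hq, map_mul] at h1
        have h2 : v P * v q < 1 := by
          calc v P * v q ≤ 1 * v q := mul_le_mul_left hPhi _
            _ = v q := one_mul _
            _ < 1 := h
        exact h2.ne h1
      · exact h
      · exfalso
        have h1 : v (q ^ 2 + 1) = v q ^ 2 := by
          rw [← map_pow]
          refine Valuation.map_add_eq_of_lt_left v ?_
          rw [map_one, map_pow]
          exact one_lt_pow₀ h (by norm_num)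
        rw [hq, map_mul, pow_two] at h1
        have h2 : v P = v q := mul_right_cancel₀ ((Valuation.ne_zero_iff v).2 hq0) h1
        rw [h2] at hPhi
        exact absurd h (not_lt.2 hPhi)
    have hle : ∀ r : Fin n, v (xP f - cP f (b r)) ≤ 1 := fun r =>
      (v.map_sub _ _).trans (max_le hx (val_int f v (hbi _)))
    by_cases hB : ∃ r : Fin n, v (xP f - cP f (b r)) < 1
    · obtain ⟨r, hr⟩ := hB
      obtain ⟨ζ, k, hk, hζ, ht⟩ := hb r
      have h1 : v (P - cP f (F.eval (b r))) < 1 := val_sub_lt f v hF hx (hbi r) hr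
      have htv : v (cP f (F.eval (b r))) ≤ 1 := by
        have h2 : cP f (F.eval (b r)) = P - (P - cP f (F.eval (b r))) := by ring
        rw [h2]
        exact (v.map_sub _ _).trans (max_le hPhi h1.le)
      have h6 : v (q ^ 2 - cP f (F.eval (b r)) * q + 1) < 1 := by
        have h7 : q ^ 2 - cP f (F.eval (b r)) * q + 1 = (P - cP f (F.eval (b r))) * q := by
          linear_combination hq
        rw [h7, map_mul, hq1, mul_one]
        exact h1
      have h12 := val_pow_sub_one_lt s (cP f) v hk hζ ht htv hq1.le h6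
      exact Pool.Agent.TH826.MK.mem_unitPart_of_pow v 0 a hk (by rw [ha0]; exact h12)
    · push Not at hB
      refine Submodule.subset_span ⟨a, fun i => ?_, rfl⟩
      fin_cases i
      · exact hq1
      · show v (a 1 : L) = 1
        rw [ha1, map_div₀, le_antisymm (hle m) (hB m), le_antisymm (hle l) (hB l), div_one]

theorem symb_mem_unramified (s : K →+* ℂ) (hF : ∀ i, IsIntegral ℤ (F.coeff i))
    (hbi : ∀ m, IsIntegral ℤ (b m)) (m l : Fin n)
    (hb : ∀ m : Fin n, ∃ (ζ : ℂ) (k : ℕ), k ≠ 0 ∧ ζ ^ k = 1 ∧ s (F.eval (b m)) = ζ + ζ⁻¹) :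
    KQ.map 2 f (symb (pent F b m l)) ∈ Unramified L 2 := by
  rw [KQ.map_symb]
  unfold Unramified
  simp only [Submodule.mem_iInf]
  intro v _
  exact symb_mem_unitPart f v s hF hbi m l hb

end Pool.Agent.TH826.UH
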