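import Mathlib
set_option autoImplicit false

/-!
A polynomial `F` of degree `n` and `n` points `b_j` with `|F(b_j)| ≤ 2` such that
`|F| > 2` away from the disjoint discs of radius `ρ` around the `b_j`: every `u` with
`|u| < 2 + η` has exactly one preimage in each disc, and it depends analytically on `u`.
-/

namespace Pool.Agent.TH826.UH

open Polynomial Metric Set Filter Topology

/-- the points outside of the open discs of radius `ρ` around the `b_j` -/
def outer {n : ℕ} (b : Fin n → ℂ) (ρ : ℝ) : Set ℂ := {x | ∀ j, ρ ≤ ‖x - b j‖}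

theorem isClosed_outer {n : ℕ} (b : Fin n → ℂ) (ρ : ℝ) : IsClosed (outer b ρ) := by
  have e : outer b ρ = ⋂ j, {x | ρ ≤ ‖x - b j‖} := by
    ext x
    simp [outer]
  rw [e]
  refine isClosed_iInter fun j => ?_
  exact isClosed_le continuous_const (continuous_id.sub continuous_const).norm

variable {n : ℕ} {F : ℂ[X]} {b : Fin n → ℂ} {ρ : ℝ}

/-- uniform lower bound outside of the discs -/
theorem exists_gap (hdeg : 0 < F.degree) (h : ∀ x ∈ outer b ρ, 2 < ‖F.eval x‖) :
    ∃ η : ℝ, 0 < η ∧ ∀ x ∈ outer b ρ, 2 + η ≤ ‖F.eval x‖ := by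
  by_cases hne : (outer b ρ).Nonempty
  · obtain ⟨x₀, hx₀⟩ := hne
    have h1 : Tendsto (fun x : ℂ => ‖F.eval x‖) (cocompact ℂ) atTop :=
      F.tendsto_norm_atTop hdeg tendsto_norm_cocompact_atTop
    have h2 : ∀ᶠ x in cocompact ℂ ⊓ 𝓟 (outer b ρ), ‖F.eval x₀‖ ≤ ‖F.eval x‖ :=
      (h1.eventually_ge_atTop _).filter_mono inf_le_left
    obtain ⟨y, hy, hmin⟩ := (F.continuous.norm.continuousOn (s := outer b ρ)).exists_isMinOn'
      (isClosed_outer b ρ) hx₀ h2
    refine ⟨‖F.eval y‖ - 2, sub_pos.2 (h y hy), fun x hx => ?_⟩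
    have : ‖F.eval y‖ ≤ ‖F.eval x‖ := hmin hx
    linarith
  · exact ⟨1, one_pos, fun x hx => absurd ⟨x, hx⟩ hne⟩

/-- the hypotheses on `F` and the points `b_j` -/
structure Sepd {n : ℕ} (F : ℂ[X]) (b : Fin n → ℂ) (ρ η : ℝ) : Prop where
  deg : F.natDegree = n
  npos : 0 < n
  pos : 0 < ρ
  sep : ∀ i j, i ≠ j → 2 * ρ ≤ ‖b i - b j‖
  val : ∀ j, ‖F.eval (b j)‖ ≤ 2
  eta : 0 < η
  out : ∀ x ∈ outer b ρ, 2 + η ≤ ‖F.eval x‖

variable {η : ℝ}

theorem Sepd.disjoint (H : Sepd F b ρ η) {i j : Fin n} {x : ℂ} (hi : ‖x - b i‖ < ρ)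
    (hj : ‖x - b j‖ < ρ) : i = j := by
  by_contra hij
  have h1 := H.sep i j hij
  have h2 : ‖b i - b j‖ ≤ ‖x - b j‖ + ‖x - b i‖ := by
    have : b i - b j = (x - b j) - (x - b i) := by ring
    rw [this]
    exact norm_sub_le _ _
  linarith

theorem Sepd.exists_root (H : Sepd F b ρ η) (j : Fin n) {u : ℂ} (hu : ‖u‖ < 2 + η) :
    ∃ x : ℂ, ‖x - b j‖ < ρ ∧ F.eval x = u := by
  have hF0 : 0 < F.natDegree := by rw [H.deg]; exact H.npos
  have hconn : IsPreconnected (ball (0 : ℂ) (2 + η)) := (convex_ball _ _).isPreconnected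
  set A : Set ℂ := (fun x => F.eval x) '' ball (b j) ρ with hA
  have hAopen : IsOpen A := by
    have h1 : AnalyticOnNhd ℂ (fun x => F.eval x) univ := fun x _ =>
      (F.differentiable.analyticAt x)
    rcases h1.is_constant_or_isOpen isPreconnected_univ with ⟨w, hw⟩ | h2
    · exfalso
      have h3 : F = C w := Polynomial.funext fun x => by rw [hw x (mem_univ _), eval_C]
      rw [h3, natDegree_C] at hF0
      exact lt_irrefl _ hF0
    · exact h2 _ (subset_univ _) isOpen_ball
  set B : Set ℂ := ((fun x => F.eval x) '' closedBall (b j) ρ)ᶜ with hB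
  have hBopen : IsOpen B :=
    (((isCompact_closedBall (b j) ρ).image F.continuous).isClosed).isOpen_compl
  have hcover : ball (0 : ℂ) (2 + η) ⊆ A ∪ B := by
    intro w hw
    by_cases h : w ∈ A
    · exact Or.inl h
    · refine Or.inr fun h2 => h ?_
      obtain ⟨x, hx, hxw⟩ := h2
      refine ⟨x, ?_, hxw⟩
      rw [mem_closedBall_iff_norm] at hx
      rw [mem_ball_iff_norm]
      refine lt_of_le_of_ne hx fun he => ?_
      have h3 : x ∈ outer b ρ := by
        intro i
        by_cases hij : i = j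
        · rw [hij]; exact he.ge
        · have h4 := H.sep i j hij
          have h5 : ‖b i - b j‖ ≤ ‖x - b j‖ + ‖x - b i‖ := by
            have : b i - b j = (x - b j) - (x - b i) := by ring
            rw [this]
            exact norm_sub_le _ _
          linarith
      have h4 := H.out x h3
      have hxw' : F.eval x = w := hxw
      rw [hxw'] at h4
      rw [mem_ball_zero_iff] at hw
      linarith
  have hbj : F.eval (b j) ∈ A := ⟨b j, mem_ball_self H.pos, rfl⟩
  by_contra hno
  push Not at hno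
  have hu2 : u ∈ B := by
    rcases hcover (mem_ball_zero_iff.2 hu) with h | h
    · obtain ⟨x, hx, hxu⟩ := h
      exact absurd hxu (hno x (mem_ball_iff_norm.1 hx))
    · exact h
  have hη1 : ‖F.eval (b j)‖ < 2 + η := (H.val j).trans_lt (by linarith [H.eta])
  obtain ⟨w, hw1, hw2, hw3⟩ := hconn A B hAopen hBopen hcover
    ⟨_, mem_ball_zero_iff.2 hη1, hbj⟩ ⟨u, mem_ball_zero_iff.2 hu, hu2⟩
  obtain ⟨x, hx, hxw⟩ := hw2
  exact hw3 ⟨x, ball_subset_closedBall hx, hxw⟩

/-- A monic polynomial of degree `n` with `n` different roots is a product of linear factors. -/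
theorem eq_prod {P : ℂ[X]} (hP : P.Monic) (hdeg : P.natDegree = n) {r : Fin n → ℂ}
    (hinj : Function.Injective r) (hr : ∀ i, P.eval (r i) = 0) : P = ∏ i, (X - C (r i)) := by
  have hmQ : (∏ i, (X - C (r i))).Monic := monic_prod_of_monic _ _ fun i _ => monic_X_sub_C _
  have hdQ : (∏ i, (X - C (r i))).natDegree = n := by
    rw [natDegree_prod_of_monic _ _ fun i _ => monic_X_sub_C _]
    simp
  rw [← sub_eq_zero]
  rcases Nat.eq_zero_or_pos n with hn | hn
  · subst hn
    rw [hP.natDegree_eq_zero.1 hdeg]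
    simp
  refine eq_zero_of_natDegree_lt_card_of_eval_eq_zero _ hinj (fun i => ?_) ?_
  · rw [eval_sub, hr i, eval_prod, Finset.prod_eq_zero (Finset.mem_univ i) (by simp), sub_zero]
  · rw [Fintype.card_fin]
    by_cases h0 : P - ∏ i, (X - C (r i)) = 0
    · rw [h0, natDegree_zero]; exact hn
    · have h1 := degree_sub_lt_left (p := P) (q := ∏ i, (X - C (r i))) ?_ hP.ne_zero ?_
      · exact (natDegree_lt_natDegree h0 h1).trans_le hdeg.le
      · rw [degree_eq_natDegree hP.ne_zero, degree_eq_natDegree hmQ.ne_zero, hdeg, hdQ]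
      · rw [hP.leadingCoeff, hmQ.leadingCoeff]

/-- A polynomial of degree `n` with `n` different roots is a multiple of a product of linear
factors. -/
theorem eq_lead_mul_prod {P : ℂ[X]} (hP : P ≠ 0) (hdeg : P.natDegree = n) {r : Fin n → ℂ}
    (hinj : Function.Injective r) (hr : ∀ i, P.eval (r i) = 0) :
    P = C P.leadingCoeff * ∏ i, (X - C (r i)) := by
  have hl : P.leadingCoeff ≠ 0 := leadingCoeff_ne_zero.2 hP
  have h1 := eq_prod (P := P * C P.leadingCoeff⁻¹) (monic_mul_leadingCoeff_inv hP)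
    (by rw [natDegree_mul_C (inv_ne_zero hl), hdeg]) hinj
    (fun i => by rw [eval_mul, hr i, zero_mul])
  rw [← h1, mul_comm P, ← mul_assoc, ← C_mul, mul_inv_cancel₀ hl, C_1, one_mul]

theorem deriv_prod_ne_zero {r : Fin n → ℂ} (hinj : Function.Injective r) (j : Fin n) :
    (derivative (∏ i, (X - C (r i)))).eval (r j) ≠ 0 := by
  rw [← Finset.mul_prod_erase _ _ (Finset.mem_univ j), derivative_mul]
  simp only [derivative_sub, derivative_X, derivative_C, sub_zero, one_mul, eval_add, eval_mul,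
    eval_sub, eval_X, eval_C, sub_self, zero_mul, add_zero]
  rw [eval_prod]
  refine Finset.prod_ne_zero_iff.2 fun i hi => ?_
  rw [eval_sub, eval_X, eval_C]
  exact sub_ne_zero.2 fun h => Finset.ne_of_mem_erase hi (hinj h).symm

/-- The branches of the inverse function. -/
theorem Sepd.exists_branches (H : Sepd F b ρ η) : ∃ x : Fin n → ℂ → ℂ,
    (∀ j, ∀ u ∈ ball (0 : ℂ) (2 + η), AnalyticAt ℂ (x j) u) ∧
    (∀ j, ∀ u ∈ ball (0 : ℂ) (2 + η), ‖x j u - b j‖ < ρ) ∧
    (∀ u ∈ ball (0 : ℂ) (2 + η), F - C u = C F.leadingCoeff * ∏ j, (X - C (x j u))) ∧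
    (∀ j, ∀ u ∈ ball (0 : ℂ) (2 + η), (derivative F).eval (x j u) ≠ 0) := by
  have hex : ∀ (j : Fin n) (u : ℂ), ∃ y : ℂ, ‖u‖ < 2 + η → ‖y - b j‖ < ρ ∧ F.eval y = u := by
    intro j u
    by_cases hu : ‖u‖ < 2 + η
    · obtain ⟨y, hy⟩ := H.exists_root j hu
      exact ⟨y, fun _ => hy⟩
    · exact ⟨0, fun h => absurd h hu⟩
  choose x hx using hex
  have hinj : ∀ u ∈ ball (0 : ℂ) (2 + η), Function.Injective fun j => x j u := by
    intro u hu i j hij
    have hij' : x i u = x j u := hij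
    have h1 := (hx i u (mem_ball_zero_iff.1 hu)).1
    have h2 := (hx j u (mem_ball_zero_iff.1 hu)).1
    rw [hij'] at h1
    exact H.disjoint h1 h2
  have hF0 : F ≠ 0 := by
    intro h
    have h1 := H.deg
    rw [h, natDegree_zero] at h1
    exact H.npos.ne h1
  have hprod : ∀ u ∈ ball (0 : ℂ) (2 + η), F - C u =
      C F.leadingCoeff * ∏ j, (X - C (x j u)) := by
    intro u hu
    have hd : (C u).degree < F.degree := by
      rw [degree_eq_natDegree hF0, H.deg]
      exact lt_of_le_of_lt degree_C_le (by exact_mod_cast H.npos)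
    have hlead : (F - C u).leadingCoeff = F.leadingCoeff := leadingCoeff_sub_of_degree_lt hd
    rw [← hlead]
    refine eq_lead_mul_prod ?_ ?_ (hinj u hu) fun i => ?_
    · rw [← leadingCoeff_ne_zero, hlead, leadingCoeff_ne_zero]
      exact hF0
    · rw [natDegree_sub_C, H.deg]
    · rw [eval_sub, eval_C, (hx i u (mem_ball_zero_iff.1 hu)).2, sub_self]
  have hder : ∀ j, ∀ u ∈ ball (0 : ℂ) (2 + η), (derivative F).eval (x j u) ≠ 0 := by
    intro j u hu
    have h1 : derivative F = C F.leadingCoeff * derivative (∏ i, (X - C (x i u))) := by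
      have h2 : derivative (F - C u) = derivative (C F.leadingCoeff * ∏ i, (X - C (x i u))) := by
        rw [hprod u hu]
      rw [derivative_sub, derivative_C, sub_zero, derivative_C_mul] at h2
      exact h2
    rw [h1, eval_mul, eval_C]
    exact mul_ne_zero (leadingCoeff_ne_zero.2 hF0) (deriv_prod_ne_zero (hinj u hu) j)
  refine ⟨x, fun j u hu => ?_, fun j u hu => (hx j u (mem_ball_zero_iff.1 hu)).1, hprod, hder⟩
  have hF : AnalyticAt ℂ (fun y => F.eval y) (x j u) := F.differentiable.analyticAt _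
  have hF' : deriv (fun y => F.eval y) (x j u) ≠ 0 := by
    rw [Polynomial.deriv]
    exact hder j u hu
  have hval : F.eval (x j u) = u := (hx j u (mem_ball_zero_iff.1 hu)).2
  have hinv := hF.analyticAt_localInverse hF'
  have hright := hF.hasStrictDerivAt.eventually_right_inverse hF'
  set ψ := hF.hasStrictDerivAt.localInverse _ _ _ hF' with hψ
  have hψ0 : ψ (F.eval (x j u)) = x j u := HasStrictFDerivAt.localInverse_apply_image ..
  rw [hval] at hinv hright hψ0
  have hnear : ∀ᶠ w in 𝓝 u, ‖ψ w - b j‖ < ρ := by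
    have h1 : ContinuousAt (fun w => ‖ψ w - b j‖) u :=
      (hinv.continuousAt.sub continuousAt_const).norm
    refine h1.eventually_lt continuousAt_const ?_
    rw [hψ0]
    exact (hx j u (mem_ball_zero_iff.1 hu)).1
  have hball : ∀ᶠ w in 𝓝 u, w ∈ ball (0 : ℂ) (2 + η) := isOpen_ball.mem_nhds hu
  refine hinv.congr ?_
  filter_upwards [hright, hnear, hball] with w h1 h2 h3
  have h4 : (F - C w).eval (ψ w) = 0 := by
    rw [eval_sub, eval_C]
    exact sub_eq_zero.2 h1
  rw [hprod w h3, eval_mul, eval_C, eval_prod] at h4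
  obtain ⟨i, -, hi⟩ := Finset.prod_eq_zero_iff.1
    ((mul_eq_zero.1 h4).resolve_left (leadingCoeff_ne_zero.2 hF0))
  rw [eval_sub, eval_X, eval_C, sub_eq_zero] at hi
  have h5 := (hx i w (mem_ball_zero_iff.1 h3)).1
  rw [← hi] at h5
  have h6 := H.disjoint h5 h2
  rw [hi, h6]

end Pool.Agent.TH826.UH
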