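import Pool.Agent.TH826.UH.Ring
import Pool.Agent.TH826.UH.Pair
set_option autoImplicit false

/-!
Loops in the complex points of the curve `z + 1/z = F(x)` over a field `K` with `s : K → ℂ`.
-/

namespace Pool.Agent.TH826.UH

open Polynomial

open Pool.Agent.TH826.MK (Torus symb pairing)

open Pool.Agent.TH826.HD

variable {K : Type*} [Field K] {s : K →+* ℂ} {F : K[X]} {n : ℕ} {b : Fin n → K}

/-- the points of the open part of the curve -/
structure PtS (s : K →+* ℂ) (F : K[X]) (b : Fin n → K) (x z : ℂ) : Prop where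
  eq : z ^ 2 - F.eval₂ s x * z + 1 = 0
  ne : ∀ m, x ≠ s (b m)

variable {x z : ℂ}

/-- evaluation of the regular functions on the curve -/
noncomputable def PtS.evB (h : PtS s F b x z) : PRing F →+* ℂ := evP s x z h.eq

theorem PtS.evB_ppol (h : PtS s F b x z) (p : K[X]) : h.evB (ppol F p) = p.eval₂ s x :=
  evP_ppol _ _ _ h.eq p

theorem PtS.evB_pz (h : PtS s F b x z) : h.evB (pz F) = z := evP_pz _ _ _ h.eq

theorem PtS.evB_mk (h : PtS s F b x z) (p : K[X][X]) :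
    h.evB (AdjoinRoot.mk (peqn F) p : AdjoinRoot (peqn F)) =
      p.eval₂ (Polynomial.eval₂RingHom s x) z :=
  evP_mk _ _ _ h.eq p

theorem PtS.evB_pDel (h : PtS s F b x z) : h.evB (pDel F b) = ∏ m, (x - s (b m)) := by
  unfold pDel
  rw [h.evB_ppol, Polynomial.eval₂_finsetProd]
  simp

theorem PtS.evB_ne (h : PtS s F b x z) : h.evB (pDel F b) ≠ 0 := by
  rw [h.evB_pDel]
  exact Finset.prod_ne_zero_iff.2 fun m _ => sub_ne_zero.2 (h.ne m)

/-- evaluation of the regular functions on the open part -/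
noncomputable def PtS.evA (h : PtS s F b x z) : POpen F b →+* ℂ := liftP h.evB h.evB_ne

theorem PtS.evA_toP (h : PtS s F b x z) (r : PRing F) : h.evA (toP F b r) = h.evB r :=
  liftP_toP _ _ _

theorem PtS.evA_congr {x' z' : ℂ} (h : PtS s F b x z) (h' : PtS s F b x' z') (e : x = x')
    (e' : z = z') : h.evA = h'.evA := by
  subst e
  subst e'
  rfl

theorem PtS.evA_pcst (h : PtS s F b x z) (y : K) : h.evA (pcst F b y) = s y := by
  show h.evA (toP F b (ppol F (C y))) = _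
  rw [h.evA_toP, h.evB_ppol, Polynomial.eval₂_C]

theorem PtS.evA_uz (h : PtS s F b x z) : h.evA (uz F b : POpen F b) = z := by
  rw [coe_uz, h.evA_toP, h.evB_pz]

theorem PtS.evA_ux (h : PtS s F b x z) (m : Fin n) :
    h.evA (ux F b m : POpen F b) = x - s (b m) := by
  rw [coe_ux, h.evA_toP, h.evB_ppol]
  simp

theorem contDiff_evA {d : ℕ} {X Z : (Fin d → ℝ) → ℂ} (hX : ContDiff ℝ 2 X)
    (hZ : ContDiff ℝ 2 Z) (hP : ∀ θ, PtS s F b (X θ) (Z θ)) (h : POpen F b) :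
    ContDiff ℝ 2 fun θ => (hP θ).evA h := by
  have hpol : ∀ p : K[X], ContDiff ℝ 2 fun θ => p.eval₂ s (X θ) := by
    intro p
    have e : (fun θ => p.eval₂ s (X θ)) = fun θ =>
        ∑ i ∈ Finset.range (p.natDegree + 1), s (p.coeff i) * (X θ) ^ i := by
      funext θ
      rw [Polynomial.eval₂_eq_sum_range]
    rw [e]
    exact ContDiff.sum fun i _ => contDiff_const.mul (hX.pow i)
  have hB : ∀ r : PRing F, ContDiff ℝ 2 fun θ => (hP θ).evB r := by
    intro r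
    obtain ⟨p, hp⟩ := AdjoinRoot.mk_surjective (g := peqn F) r
    have e : (fun θ => (hP θ).evB r) = fun θ =>
        ∑ i ∈ Finset.range (p.natDegree + 1), (p.coeff i).eval₂ s (X θ) * (Z θ) ^ i := by
      funext θ
      rw [← hp, (hP θ).evB_mk, Polynomial.eval₂_eq_sum_range]
      rfl
    rw [e]
    exact ContDiff.sum fun i _ => (hpol _).mul (hZ.pow i)
  obtain ⟨p, hp⟩ := AdjoinRoot.mk_surjective (g := peqnO F b) h
  have e : (fun θ => (hP θ).evA h) = fun θ =>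
      ∑ i ∈ Finset.range (p.natDegree + 1), (hP θ).evB (p.coeff i) *
        ((hP θ).evB (pDel F b))⁻¹ ^ i := by
    funext θ
    rw [← hp]
    unfold PtS.evA
    rw [liftP_mk, Polynomial.eval₂_eq_sum_range]
  rw [e]
  exact ContDiff.sum fun i _ => (hB _).mul (((hB _).inv fun θ => (hP θ).evB_ne).pow i)

/-- A loop in the open part of the curve. -/
noncomputable def mkS {X Z : ℝ → ℂ} (hX : ContDiff ℝ 2 X) (hZ : ContDiff ℝ 2 Z)
    (hX1 : ∀ t, X (t + 1) = X t) (hZ1 : ∀ t, Z (t + 1) = Z t)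
    (hP : ∀ t, PtS s F b (X t) (Z t)) : Torus (POpen F b) 1 where
  e θ := (hP (θ 0)).evA
  smooth h := contDiff_evA (X := fun θ => X (θ 0)) (Z := fun θ => Z (θ 0))
    (hX.comp (contDiff_apply ℝ ℝ 0)) (hZ.comp (contDiff_apply ℝ ℝ 0)) (fun θ => hP (θ 0)) h
  periodic θ i := by
    have h0 : (θ + Pi.single i 1 : Fin 1 → ℝ) 0 = θ 0 + 1 := by
      rw [Pi.add_apply, Subsingleton.elim i 0, Pi.single_eq_same]
    refine PtS.evA_congr _ _ ?_ ?_
    · rw [h0, hX1]
    · rw [h0, hZ1]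

theorem mkS_e {X Z : ℝ → ℂ} (hX : ContDiff ℝ 2 X) (hZ : ContDiff ℝ 2 Z)
    (hX1 : ∀ t, X (t + 1) = X t) (hZ1 : ∀ t, Z (t + 1) = Z t)
    (hP : ∀ t, PtS s F b (X t) (Z t)) (θ : Fin 1 → ℝ) :
    (mkS hX hZ hX1 hZ1 hP).e θ = (hP (θ 0)).evA := rfl

/-- The regulator of the symbol `{z, (x - b_m) / (x - b_l)}` on a loop `(X, Z)`. -/
theorem mkS_reg {X Z : ℝ → ℂ} (hX : ContDiff ℝ 2 X) (hZ : NZ Z)
    (hX1 : ∀ t, X (t + 1) = X t) (hZ1 : ∀ t, Z (t + 1) = Z t)
    (hP : ∀ t, PtS s F b (X t) (Z t)) (m l : Fin n) :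
    (mkS hX hZ.smooth hX1 hZ1 hP).reg (symb (pent F b m l)) =
      pr Z (fun t => X t - s (b m)) - pr Z (fun t => X t - s (b l)) := by
  have nX : ∀ m, NZ fun t => X t - s (b m) := fun m =>
    ⟨hX.sub contDiff_const, fun t => sub_ne_zero.2 ((hP t).ne m)⟩
  rw [← pr_div hZ (nX m) (nX l), ← pairing_eq_pr hZ ((nX m).div (nX l)), Torus.reg_symb]
  unfold Torus.pair
  congr 1
  funext i θ
  fin_cases i
  · show (hP (θ 0)).evA (uz F b : POpen F b) = Z (θ 0)
    rw [PtS.evA_uz]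
  · show (hP (θ 0)).evA ((ux F b m / ux F b l : (POpen F b)ˣ) : POpen F b) =
      (X (θ 0) - s (b m)) / (X (θ 0) - s (b l))
    have h1 : (hP (θ 0)).evA ((ux F b m / ux F b l : (POpen F b)ˣ) : POpen F b) *
        (hP (θ 0)).evA (ux F b l : POpen F b) = (hP (θ 0)).evA (ux F b m : POpen F b) := by
      rw [← map_mul, ← Units.val_mul, div_mul_cancel]
    rw [PtS.evA_ux, PtS.evA_ux] at h1
    rw [eq_div_iff (sub_ne_zero.2 ((hP (θ 0)).ne l))]
    exact h1

end Pool.Agent.TH826.UH
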